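import Pool.Agent.Helper93.HZ.Spec1

/-!
# HZ: END, the frozen form of one-endedness implies the coboundary form
-/

set_option autoImplicit false

open MulAction Filter

namespace Pool.Agent.Helper93.HZ

theorem end_exists {V : Type} (Γ : SimpleGraph V) [Γ.LocallyFinite] [Fact Γ.Preconnected]
    (B : Set V) (hB : B.Infinite) :
    ∃ e : Γ.end, ∀ K : (Finset V)ᵒᵖ, ∃ v ∈ B,
      v ∈ SimpleGraph.ComponentCompl.supp (G := Γ) (K := (K.unop : Set V))
        ((e : (j : (Finset V)ᵒᵖ) → Γ.componentComplFunctor.obj j) K) := by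
  classical
  have hne : (cofinite ⊓ 𝓟 B).NeBot := hB.cofinite_inf_principal_neBot
  set U : Ultrafilter V := Ultrafilter.of (cofinite ⊓ 𝓟 B) with hU
  have hle : (U : Filter V) ≤ cofinite ⊓ 𝓟 B := Ultrafilter.of_le _
  have hBU : B ∈ U := hle (mem_inf_of_right (mem_principal_self B))
  have hco : ∀ K : Finset V, ((K : Set V)ᶜ) ∈ U := fun K =>
    hle (mem_inf_of_left K.finite_toSet.compl_mem_cofinite)
  have hC : ∀ K : (Finset V)ᵒᵖ, ∃ C : Γ.ComponentCompl K.unop, C.supp ∈ U := by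
    intro K
    have h1 : (⋃ C ∈ (Set.univ : Set (Γ.ComponentCompl K.unop)), C.supp) ∈ U := by
      refine mem_of_superset (hco K.unop) ?_
      intro v hv
      simp only [Set.mem_univ, Set.iUnion_true, Set.mem_iUnion]
      exact ⟨Γ.componentComplMk hv, hv, rfl⟩
    have hfin : (Set.univ : Set (Γ.ComponentCompl K.unop)).Finite := Set.finite_univ
    obtain ⟨C, -, h2⟩ := (Ultrafilter.finite_biUnion_mem_iff hfin).mp h1
    exact ⟨C, h2⟩
  choose e he using hC
  have hsec : e ∈ Γ.end := by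
    intro L K f
    have hKL := CategoryTheory.le_of_op_hom f
    have h1 : (e K).supp ∩ (e L).supp ∈ U := inter_mem (he K) (he L)
    obtain ⟨v, hvK, hvL⟩ := Ultrafilter.nonempty_of_mem h1
    have hKL2 : ((K.unop : Finset V) : Set V) ⊆ ((L.unop : Finset V) : Set V) :=
      Finset.coe_subset.mpr hKL
    change (e L).hom hKL2 = e K
    rw [SimpleGraph.ComponentCompl.hom_eq_iff_not_disjoint]
    exact Set.not_disjoint_iff.mpr ⟨v, hvL, hvK⟩
  refine ⟨⟨e, hsec⟩, fun K => ?_⟩
  obtain ⟨v, hv1, hv2⟩ := Ultrafilter.nonempty_of_mem (inter_mem hBU (he K))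
  exact ⟨v, hv1, hv2⟩

theorem end_reach {G : Type} [Group G] (S : Set G) (g : G) (hg : g ∈ Subgroup.closure S) (x : G) :
    (SimpleGraph.fromRel (fun x y : G => ∃ s ∈ S, y = x * s)).Reachable x (x * g) := by
  induction hg using Subgroup.closure_induction generalizing x with
  | mem s hs =>
    by_cases h : x = x * s
    · rw [← h]
    · refine SimpleGraph.Adj.reachable ?_
      rw [SimpleGraph.fromRel_adj]
      exact ⟨h, Or.inl ⟨s, hs, rfl⟩⟩
  | one => rw [mul_one]
  | mul a b _ _ iha ihb =>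
    rw [← mul_assoc]
    exact (iha x).trans (ihb (x * a))
  | inv a _ ih =>
    have := ih (x * a⁻¹)
    rw [inv_mul_cancel_right] at this
    exact this.symm

theorem st_END : ST_END := by
  classical
  intro G _ S hS hU
  obtain ⟨u⟩ := hU
  set Γ := SimpleGraph.fromRel (fun x y : G => ∃ s ∈ S, y = x * s) with hΓ
  have hinf : Infinite G := by
    by_contra h
    rw [not_infinite_iff_finite] at h
    exact IsEmpty.false (u.default : Γ.end)
  have hpre : Fact Γ.Preconnected := ⟨by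
    intro x y
    have := end_reach (S : Set G) (x⁻¹ * y) (by rw [hS]; trivial) x
    rw [mul_inv_cancel_left] at this
    exact this⟩
  have hlf : Γ.LocallyFinite := by
    intro x
    refine (Set.Finite.subset (s := (fun s => x * s) '' (S : Set G) ∪
      (fun s => x * s⁻¹) '' (S : Set G)) ?_ ?_).fintype
    · exact (S.finite_toSet.image _).union (S.finite_toSet.image _)
    · intro y hy
      rw [SimpleGraph.mem_neighborSet, hΓ, SimpleGraph.fromRel_adj] at hy
      rcases hy.2 with ⟨s, hs, rfl⟩ | ⟨s, hs, h⟩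
      · exact Or.inl ⟨s, hs, rfl⟩
      · refine Or.inr ⟨s, hs, ?_⟩
        simp only
        rw [h, mul_inv_cancel_right]
  refine ⟨hinf, S, hS, fun A hA => ?_⟩
  by_contra hcon
  rw [not_or] at hcon
  obtain ⟨hA1, hA2⟩ := hcon
  set K0 : Finset G := hA.toFinset.image Prod.fst with hK0
  have hadj0 : ∀ x s, s ∈ S → x ∉ K0 → (x ∈ A ↔ x * s ∈ A) := by
    intro x s hs hx
    by_contra h
    apply hx
    rw [hK0, Finset.mem_image]
    exact ⟨(x, s), by rw [Set.Finite.mem_toFinset]; exact ⟨hs, h⟩, rfl⟩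
  have hadj : ∀ x y, Γ.Adj x y → x ∉ K0 → y ∉ K0 → (x ∈ A ↔ y ∈ A) := by
    intro x y hxy hx hy
    rw [hΓ, SimpleGraph.fromRel_adj] at hxy
    rcases hxy.2 with ⟨s, hs, rfl⟩ | ⟨s, hs, rfl⟩
    · exact hadj0 x s hs hx
    · exact (hadj0 y s hs hy).symm
  obtain ⟨e1, he1⟩ := end_exists Γ A hA1
  obtain ⟨e2, he2⟩ := end_exists Γ Aᶜ hA2
  have h12 : e1 = e2 := (u.uniq e1).trans (u.uniq e2).symm
  subst h12
  obtain ⟨v, hvA, hv⟩ := he1 (Opposite.op K0)
  obtain ⟨w, hwA, hw⟩ := he2 (Opposite.op K0)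
  obtain ⟨hv0, hv⟩ := hv
  obtain ⟨hw0, hw⟩ := hw
  have hvw := hv.trans hw.symm
  rw [SimpleGraph.ConnectedComponent.eq] at hvw
  obtain ⟨p⟩ := hvw
  have hwalk : ∀ (a b : ((K0 : Set G)ᶜ : Set G)), (Γ.induce ((K0 : Set G)ᶜ)).Walk a b →
      (a.1 ∈ A ↔ b.1 ∈ A) := by
    intro a b p
    induction p with
    | nil => rfl
    | cons h q ih =>
      rename_i a b c
      exact (hadj a.1 b.1 h a.2 b.2).trans ih
  exact hwA ((hwalk _ _ p).mp hvA)

end Pool.Agent.Helper93.HZ
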