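import Pool.Agent.Helper93.HZ.L2

/-!
# HZ: L2A, the rank formula for the von Neumann dimension
-/

set_option autoImplicit false

open MulAction Filter Topology

namespace Pool.Agent.Helper93.HZ

open Classical in
/-- the unit vector at `y` -/
noncomputable def l2a_dl {Y : Type} (y : Y) : HS Y := lp.single 2 y (1 : ℝ)

open Classical in
theorem l2a_dl_apply {Y : Type} (y z : Y) :
    (l2a_dl y : HS Y) z = if z = y then 1 else 0 := by
  unfold l2a_dl
  rw [lp.single_apply, Pi.single_apply]

theorem l2a_inner_right {Y : Type} (f : HS Y) (y : Y) : inner ℝ f (l2a_dl y) = f y := by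
  classical
  unfold l2a_dl
  rw [lp.inner_single_right]
  simp

theorem l2a_inner_left {Y : Type} (f : HS Y) (y : Y) : inner ℝ (l2a_dl y) f = f y := by
  rw [real_inner_comm, l2a_inner_right]

theorem l2a_norm_dl {Y : Type} (y : Y) : ‖(l2a_dl y : HS Y)‖ = 1 := by
  classical
  unfold l2a_dl
  rw [lp.norm_single (by norm_num)]
  simp

section

variable (G : Type) [Group G] {Y X : Type} [MulAction G Y] [MulAction G X]

theorem l2a_dl_smul (g : G) (y z : Y) : (l2a_dl y : HS Y) z = (l2a_dl (g • y) : HS Y) (g • z) := by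
  classical
  rw [l2a_dl_apply, l2a_dl_apply]
  simp

/-- the matrix coefficients of an equivariant operator are invariant -/
theorem l2a_coef (T : HS Y →L[ℝ] HS X) (hT : EqvO G T) (g : G) (y : Y) (x : X) :
    T (l2a_dl (g • y)) (g • x) = T (l2a_dl y) x :=
  (hT g (l2a_dl (g • y)) (l2a_dl y) (fun z => l2a_dl_smul G g y z) x).symm

/-- equivariance of the adjoint -/
theorem l2a_adj (T : HS Y →L[ℝ] HS X) (hT : EqvO G T) :
    EqvO G (ContinuousLinearMap.adjoint T) := by
  intro g f f' hf y
  have h1 : ∀ (h : HS X) (y : Y), ContinuousLinearMap.adjoint T h y =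
      ∑' x, h x * T (l2a_dl y) x := by
    intro h y
    rw [← l2a_inner_right, ContinuousLinearMap.adjoint_inner_left, lp.inner_eq_tsum]
    refine tsum_congr fun x => ?_
    simp [mul_comm]
  rw [h1, h1]
  have h2 : ∀ x, f' x * T (l2a_dl y) x = (fun x => f x * T (l2a_dl (g • y)) x) (MulAction.toPerm g x) := by
    intro x
    simp only [MulAction.toPerm_apply]
    rw [hf, l2a_coef G T hT]
  rw [tsum_congr h2]
  exact (MulAction.toPerm g : Equiv.Perm X).tsum_eq (fun x => f x * T (l2a_dl (g • y)) x)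

theorem l2a_comp {Z : Type} [MulAction G Z] (T : HS Y →L[ℝ] HS X) (hT : EqvO G T)
    (R : HS X →L[ℝ] HS Z) (hR : EqvO G R) : EqvO G (R ∘L T) := by
  intro g f f' hf z
  exact hR g (T f) (T f') (fun x => hT g f f' hf x) z

theorem l2a_add (T R : HS Y →L[ℝ] HS X) (hT : EqvO G T) (hR : EqvO G R) : EqvO G (T + R) := by
  intro g f f' hf z
  have h1 := hT g f f' hf z
  have h2 := hR g f f' hf z
  simp only [add_apply, lp.coeFn_add, Pi.add_apply]
  rw [h1, h2]

theorem l2a_smul (c : ℝ) (T : HS Y →L[ℝ] HS X) (hT : EqvO G T) : EqvO G (c • T) := by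
  intro g f f' hf z
  have h1 := hT g f f' hf z
  simp only [smul_apply, lp.coeFn_smul, Pi.smul_apply]
  rw [h1]

theorem l2a_zero : EqvO G (0 : HS Y →L[ℝ] HS X) := by
  intro g f f' hf z
  simp

/-- the trace -/
noncomputable def l2a_tr [Finite (Quotient (orbitRel G Y))] (S : HS Y →L[ℝ] HS Y) : ℝ :=
  ∑ᶠ o : Quotient (orbitRel G Y), S (l2a_dl o.out) o.out

/-- a free `G`-set is the product of its orbit space with `G` -/
noncomputable def l2a_equiv (hX : ∀ (g : G) (x : X), g • x = x → g = 1) :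
    Quotient (orbitRel G X) × G ≃ X :=
  Equiv.ofBijective (fun p => p.2 • p.1.out) (by
    constructor
    · rintro ⟨p, g⟩ ⟨q, h⟩ hpq
      simp only at hpq
      have h1 : (Quotient.mk (orbitRel G X) (g • p.out)) = Quotient.mk (orbitRel G X) (h • q.out) := by
        rw [hpq]
      have h2 : ∀ (g : G) (x : X), Quotient.mk (orbitRel G X) (g • x) = Quotient.mk (orbitRel G X) x := by
        intro g x
        apply Quotient.sound
        exact ⟨g, rfl⟩
      rw [h2, h2, Quotient.out_eq, Quotient.out_eq] at h1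
      subst h1
      have h3 : (h⁻¹ * g) • p.out = p.out := by
        rw [mul_smul, hpq, inv_smul_smul]
      have h4 := hX _ _ h3
      have h5 : g = h := by
        rw [inv_mul_eq_one] at h4
        exact h4.symm
      rw [h5]
    · intro x
      have h1 : Quotient.mk (orbitRel G X) (Quotient.mk (orbitRel G X) x).out = Quotient.mk (orbitRel G X) x :=
        Quotient.out_eq _
      have h2 := Quotient.exact h1.symm
      obtain ⟨g, hg⟩ := h2
      exact ⟨(Quotient.mk (orbitRel G X) x, g), hg⟩)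

theorem l2a_equiv_apply (hX : ∀ (g : G) (x : X), g • x = x → g = 1)
    (p : Quotient (orbitRel G X)) (g : G) : l2a_equiv G hX (p, g) = g • p.out := rfl

theorem l2a_tsum [Finite (Quotient (orbitRel G X))] [Fintype (Quotient (orbitRel G X))]
    (hX : ∀ (g : G) (x : X), g • x = x → g = 1)
    (f : X → ℝ) (hf : Summable f) :
    ∑' x, f x = ∑ p : Quotient (orbitRel G X), ∑' g : G, f (g • p.out) := by
  rw [← (l2a_equiv G hX).tsum_eq f]
  have hs : Summable (fun p : Quotient (orbitRel G X) × G => f (l2a_equiv G hX p)) :=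
    ((l2a_equiv G hX).summable_iff (f := f)).mpr hf
  rw [hs.tsum_prod, tsum_fintype]
  rfl

/-- the trace property -/
theorem l2a_trace [Finite (Quotient (orbitRel G Y))] [Finite (Quotient (orbitRel G X))]
    (hY : ∀ (g : G) (y : Y), g • y = y → g = 1) (hX : ∀ (g : G) (x : X), g • x = x → g = 1)
    (S : HS Y →L[ℝ] HS X) (R : HS X →L[ℝ] HS Y) (hS : EqvO G S) (hR : EqvO G R) :
    l2a_tr G (R ∘L S) = l2a_tr G (S ∘L R) := by
  classical
  have := Fintype.ofFinite (Quotient (orbitRel G Y))
  have := Fintype.ofFinite (Quotient (orbitRel G X))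
  have key : ∀ {Y X : Type} (S : HS Y →L[ℝ] HS X)
      (R : HS X →L[ℝ] HS Y) (y : Y),
      HasSum (fun x => S (l2a_dl y) x * R (l2a_dl x) y) (R (S (l2a_dl y)) y) := by
    intro Y X S R y
    have h1 : R (S (l2a_dl y)) y =
        inner ℝ (S (l2a_dl y)) (ContinuousLinearMap.adjoint R (l2a_dl y)) := by
      rw [ContinuousLinearMap.adjoint_inner_right, l2a_inner_right]
    rw [h1]
    have h2 := lp.hasSum_inner (𝕜 := ℝ) (S (l2a_dl y)) (ContinuousLinearMap.adjoint R (l2a_dl y))
    have h3 : (fun x => S (l2a_dl y) x * R (l2a_dl x) y) =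
        fun x => inner ℝ (S (l2a_dl y) x) (ContinuousLinearMap.adjoint R (l2a_dl y) x) := by
      funext x
      have h4 : ContinuousLinearMap.adjoint R (l2a_dl y) x = R (l2a_dl x) y := by
        rw [← l2a_inner_right, ContinuousLinearMap.adjoint_inner_left, l2a_inner_left]
      rw [h4]
      simp [mul_comm]
    rw [h3]
    exact h2
  unfold l2a_tr
  rw [finsum_eq_sum_of_fintype, finsum_eq_sum_of_fintype]
  simp only [ContinuousLinearMap.coe_comp, Function.comp_apply]
  have e1 : ∀ o : Quotient (orbitRel G Y), R (S (l2a_dl o.out)) o.out =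
      ∑ p : Quotient (orbitRel G X), ∑' g : G,
        S (l2a_dl o.out) (g • p.out) * R (l2a_dl (g • p.out)) o.out := by
    intro o
    rw [← (key S R o.out).tsum_eq]
    exact l2a_tsum G hX _ (key S R o.out).summable
  have e2 : ∀ p : Quotient (orbitRel G X), S (R (l2a_dl p.out)) p.out =
      ∑ o : Quotient (orbitRel G Y), ∑' g : G,
        R (l2a_dl p.out) (g • o.out) * S (l2a_dl (g • o.out)) p.out := by
    intro p
    rw [← (key R S p.out).tsum_eq]
    exact l2a_tsum G hY _ (key R S p.out).summable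
  rw [Finset.sum_congr rfl (fun o _ => e1 o), Finset.sum_congr rfl (fun p _ => e2 p),
    Finset.sum_comm]
  refine Finset.sum_congr rfl fun p _ => Finset.sum_congr rfl fun o _ => ?_
  rw [← (Equiv.inv G).tsum_eq (fun g : G =>
    S (l2a_dl o.out) (g • p.out) * R (l2a_dl (g • p.out)) o.out)]
  refine tsum_congr fun g => ?_
  simp only [Equiv.inv_apply]
  have a1 := l2a_coef G S hS g o.out (g⁻¹ • p.out)
  have a2 := l2a_coef G R hR g (g⁻¹ • p.out) o.out
  rw [smul_inv_smul] at a1 a2
  rw [← a1, ← a2, mul_comm]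

theorem l2a_tr_one [Finite (Quotient (orbitRel G Y))] :
    l2a_tr G (1 : HS Y →L[ℝ] HS Y) = Nat.card (Quotient (orbitRel G Y)) := by
  classical
  have := Fintype.ofFinite (Quotient (orbitRel G Y))
  unfold l2a_tr
  rw [finsum_eq_sum_of_fintype]
  have : ∀ o : Quotient (orbitRel G Y),
      (1 : HS Y →L[ℝ] HS Y) (l2a_dl o.out) o.out = 1 := by
    intro o
    change (l2a_dl o.out : HS Y) o.out = 1
    rw [l2a_dl_apply]
    simp
  rw [Finset.sum_congr rfl (fun o _ => this o)]
  simp

theorem l2a_tr_sub [Finite (Quotient (orbitRel G Y))] (S R : HS Y →L[ℝ] HS Y) :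
    l2a_tr G (S - R) = l2a_tr G S - l2a_tr G R := by
  classical
  have := Fintype.ofFinite (Quotient (orbitRel G Y))
  unfold l2a_tr
  rw [finsum_eq_sum_of_fintype, finsum_eq_sum_of_fintype, finsum_eq_sum_of_fintype,
    ← Finset.sum_sub_distrib]
  rfl

/-- the auxiliary operators -/
noncomputable def l2a_Q (c : ℝ) (T : HS Y →L[ℝ] HS X) : ℕ → (HS Y →L[ℝ] HS X)
  | 0 => 0
  | k + 1 => l2a_Q c T k + (c • T + (-c) • ((l2a_Q c T k) ∘L
      ((ContinuousLinearMap.adjoint T) ∘L T)))

theorem l2a_Q_eqv (c : ℝ) (T : HS Y →L[ℝ] HS X) (hT : EqvO G T) (k : ℕ) :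
    EqvO G (l2a_Q c T k) := by
  induction k with
  | zero => exact l2a_zero G
  | succ k ih =>
    have h1 : EqvO G ((ContinuousLinearMap.adjoint T) ∘L T) :=
      l2a_comp G T hT _ (l2a_adj G T hT)
    exact l2a_add G _ _ ih (l2a_add G _ _ (l2a_smul G c T hT)
      (l2a_smul G (-c) _ (l2a_comp G _ h1 _ ih)))

end

theorem l2a_powY {Y X : Type} (c : ℝ) (T : HS Y →L[ℝ] HS X) (k : ℕ) (v : HS Y) :
    (fun w : HS Y => w - c • ContinuousLinearMap.adjoint T (T w))^[k] v =
      v - ContinuousLinearMap.adjoint T (l2a_Q c T k v) := by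
  induction k generalizing v with
  | zero => simp [l2a_Q]
  | succ k ih =>
    rw [Function.iterate_succ_apply, ih]
    simp only [l2a_Q, add_apply, smul_apply, ContinuousLinearMap.coe_comp, Function.comp_apply,
      map_add, map_sub, map_smul]
    module

theorem l2a_powX {Y X : Type} (c : ℝ) (T : HS Y →L[ℝ] HS X) (k : ℕ) (v : HS X) :
    (fun w : HS X => w - c • T (ContinuousLinearMap.adjoint T w))^[k] v =
      v - l2a_Q c T k (ContinuousLinearMap.adjoint T v) := by
  induction k generalizing v with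
  | zero => simp [l2a_Q]
  | succ k ih =>
    rw [Function.iterate_succ_apply, ih]
    simp only [l2a_Q, add_apply, smul_apply, ContinuousLinearMap.coe_comp, Function.comp_apply,
      map_sub, map_smul]
    module

/-! ### the mean ergodic theorem -/

theorem l2a_infDist {E : Type} [NormedAddCommGroup E] [InnerProductSpace ℝ E]
    (N : Submodule ℝ E) [N.HasOrthogonalProjection] (v : E) (hv : ‖v‖ = 1) :
    inner ℝ (N.starProjection v) v = 1 - Metric.infDist v (N : Set E) ^ 2 := by
  have h1 : Metric.infDist v (N : Set E) = ‖v - N.starProjection v‖ := by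
    rw [Metric.infDist_eq_iInf, N.starProjection_minimal]
    simp only [dist_eq_norm]
    rfl
  have h2 : inner ℝ (v - N.starProjection v) (N.starProjection v) = (0 : ℝ) :=
    N.starProjection_inner_eq_zero v _ (N.starProjection_apply_mem v)
  have h3 : inner ℝ (N.starProjection v) v =
      (inner ℝ (N.starProjection v) (N.starProjection v) : ℝ) := by
    rw [inner_sub_left] at h2
    rw [real_inner_comm]
    linarith
  have h4 : ‖v - N.starProjection v‖ ^ 2 = 1 - inner ℝ (N.starProjection v) v := by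
    rw [norm_sub_sq_real, hv, real_inner_comm, h3, real_inner_self_eq_norm_sq]
    ring
  rw [h1, h4]
  ring

theorem l2a_lim {E F : Type} [NormedAddCommGroup E] [InnerProductSpace ℝ E] [CompleteSpace E]
    [NormedAddCommGroup F] [InnerProductSpace ℝ F] [CompleteSpace F] (T : E →L[ℝ] F) (c : ℝ)
    (hc : 0 < c) (hT : c * ‖T‖ ^ 2 ≤ 1) (v : E) (hv : ‖v‖ = 1) :
    Tendsto (fun n : ℕ => (n : ℝ)⁻¹ * ∑ k ∈ Finset.range n,
      inner ℝ ((fun w : E => w - c • ContinuousLinearMap.adjoint T (T w))^[k] v) v) atTop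
      (𝓝 (1 - Metric.infDist v (LinearMap.ker T.toLinearMap : Set E) ^ 2)) := by
  set B : E →L[ℝ] E := 1 - c • (ContinuousLinearMap.adjoint T ∘L T) with hB
  have hBa : ∀ w, B w = w - c • ContinuousLinearMap.adjoint T (T w) := fun w => rfl
  have hBf : (B : E → E) = fun w : E => w - c • ContinuousLinearMap.adjoint T (T w) := by
    funext w
    exact hBa w
  have hn : ‖B‖ ≤ 1 := by
    refine ContinuousLinearMap.opNorm_le_bound _ zero_le_one fun w => ?_
    rw [one_mul, hBa]
    refine le_of_sq_le_sq ?_ (norm_nonneg w)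
    have h1 : inner ℝ w (ContinuousLinearMap.adjoint T (T w)) = ‖T w‖ ^ 2 := by
      rw [ContinuousLinearMap.adjoint_inner_right, real_inner_self_eq_norm_sq]
    have h2 : ‖ContinuousLinearMap.adjoint T (T w)‖ ≤ ‖T‖ * ‖T w‖ := by
      have := (ContinuousLinearMap.adjoint T).le_opNorm (T w)
      rwa [LinearIsometryEquiv.norm_map] at this
    have h3 : ‖ContinuousLinearMap.adjoint T (T w)‖ ^ 2 ≤ ‖T‖ ^ 2 * ‖T w‖ ^ 2 := by
      rw [← mul_pow]
      exact pow_le_pow_left₀ (norm_nonneg _) h2 2
    rw [norm_sub_sq_real, inner_smul_right, h1, norm_smul, mul_pow, Real.norm_eq_abs, sq_abs]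
    have h4 : c ^ 2 * ‖ContinuousLinearMap.adjoint T (T w)‖ ^ 2 ≤ c * ‖T w‖ ^ 2 := by
      calc c ^ 2 * ‖ContinuousLinearMap.adjoint T (T w)‖ ^ 2
          ≤ c ^ 2 * (‖T‖ ^ 2 * ‖T w‖ ^ 2) := by gcongr
        _ = (c * ‖T‖ ^ 2) * (c * ‖T w‖ ^ 2) := by ring
        _ ≤ 1 * (c * ‖T w‖ ^ 2) := by gcongr
        _ = c * ‖T w‖ ^ 2 := one_mul _
    have h5 : 0 ≤ c * ‖T w‖ ^ 2 := by positivity
    linarith
  have hker : (B.eqLocus (1 : E →L[ℝ] E)) = LinearMap.ker T.toLinearMap := by
    ext w
    rw [LinearMap.mem_eqLocus, LinearMap.mem_ker]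
    constructor
    · intro h
      have h1 : w - c • ContinuousLinearMap.adjoint T (T w) = w := h
      have h2 : c • ContinuousLinearMap.adjoint T (T w) = 0 := by
        have := sub_eq_self.mp h1
        exact this
      have h3 : ContinuousLinearMap.adjoint T (T w) = 0 :=
        (smul_eq_zero.mp h2).resolve_left hc.ne'
      have h4 : inner ℝ w (ContinuousLinearMap.adjoint T (T w)) = ‖T w‖ ^ 2 := by
        rw [ContinuousLinearMap.adjoint_inner_right, real_inner_self_eq_norm_sq]
      rw [h3, inner_zero_right] at h4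
      have h5 : ‖T w‖ = 0 := by
        have := h4.symm
        exact pow_eq_zero_iff (two_ne_zero) |>.mp this
      exact norm_eq_zero.mp h5
    · intro h
      have h1 : T w = 0 := h
      change w - c • ContinuousLinearMap.adjoint T (T w) = w
      rw [h1]
      simp
  have key := B.tendsto_birkhoffAverage_orthogonalProjection hn v
  have key2 : Tendsto (fun n => inner ℝ (birkhoffAverage ℝ B id n v) v) atTop
      (𝓝 (inner ℝ ((B.eqLocus (1 : E →L[ℝ] E)).starProjection v) v)) :=
    (key.inner tendsto_const_nhds)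
  rw [l2a_infDist _ v hv, hker] at key2
  refine key2.congr fun n => ?_
  unfold birkhoffAverage birkhoffSum
  rw [inner_smul_left, sum_inner, hBf]
  simp

theorem st_L2A : ST_L2A := by
  classical
  intro G _ Y X _ _ hY hX fY fX T hT
  have := Fintype.ofFinite (Quotient (orbitRel G Y))
  have := Fintype.ofFinite (Quotient (orbitRel G X))
  set c : ℝ := (‖T‖ ^ 2 + 1)⁻¹ with hc
  have hc0 : 0 < c := by positivity
  have hcT : c * ‖T‖ ^ 2 ≤ 1 := by
    rw [hc, inv_mul_le_iff₀ (by positivity)]
    linarith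
  have hcT' : c * ‖ContinuousLinearMap.adjoint T‖ ^ 2 ≤ 1 := by
    rwa [LinearIsometryEquiv.norm_map]
  have limY : Tendsto (fun n : ℕ => ∑ o : Quotient (orbitRel G Y), (n : ℝ)⁻¹ * ∑ k ∈ Finset.range n,
      inner ℝ ((fun w : HS Y => w - c • ContinuousLinearMap.adjoint T (T w))^[k] (l2a_dl o.out))
        (l2a_dl o.out)) atTop (𝓝 (dimG G (LinearMap.ker T.toLinearMap))) := by
    unfold dimG
    rw [finsum_eq_sum_of_fintype]
    exact tendsto_finsetSum _ fun o _ => l2a_lim T c hc0 hcT (l2a_dl o.out) (l2a_norm_dl _)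
  have limX : Tendsto (fun n : ℕ => ∑ o : Quotient (orbitRel G X), (n : ℝ)⁻¹ * ∑ k ∈ Finset.range n,
      inner ℝ ((fun w : HS X => w - c • T (ContinuousLinearMap.adjoint T w))^[k] (l2a_dl o.out))
        (l2a_dl o.out)) atTop
        (𝓝 (dimG G (LinearMap.ker (ContinuousLinearMap.adjoint T).toLinearMap))) := by
    unfold dimG
    rw [finsum_eq_sum_of_fintype]
    refine tendsto_finsetSum _ fun o _ => ?_
    have := l2a_lim (ContinuousLinearMap.adjoint T) c hc0 hcT' (l2a_dl o.out) (l2a_norm_dl _)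
    rwa [ContinuousLinearMap.adjoint_adjoint] at this
  have hdiff := limY.sub limX
  refine tendsto_nhds_unique hdiff ?_
  refine tendsto_const_nhds.congr' ?_
  filter_upwards [eventually_gt_atTop 0] with n hn
  have eY : ∀ k, ∑ o : Quotient (orbitRel G Y),
      inner ℝ ((fun w : HS Y => w - c • ContinuousLinearMap.adjoint T (T w))^[k] (l2a_dl o.out))
        (l2a_dl o.out) = (Nat.card (Quotient (orbitRel G Y)) : ℝ) -
          l2a_tr G (ContinuousLinearMap.adjoint T ∘L l2a_Q c T k) := by
    intro k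
    rw [← l2a_tr_one G (Y := Y), ← l2a_tr_sub]
    unfold l2a_tr
    rw [finsum_eq_sum_of_fintype]
    refine Finset.sum_congr rfl fun o _ => ?_
    rw [l2a_powY, l2a_inner_right]
    rfl
  have eX : ∀ k, ∑ o : Quotient (orbitRel G X),
      inner ℝ ((fun w : HS X => w - c • T (ContinuousLinearMap.adjoint T w))^[k] (l2a_dl o.out))
        (l2a_dl o.out) = (Nat.card (Quotient (orbitRel G X)) : ℝ) -
          l2a_tr G (l2a_Q c T k ∘L ContinuousLinearMap.adjoint T) := by
    intro k
    rw [← l2a_tr_one G (Y := X), ← l2a_tr_sub]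
    unfold l2a_tr
    rw [finsum_eq_sum_of_fintype]
    refine Finset.sum_congr rfl fun o _ => ?_
    rw [l2a_powX, l2a_inner_right]
    rfl
  rw [← Finset.mul_sum, ← Finset.mul_sum, Finset.sum_comm, Finset.sum_comm (s := Finset.univ)
    (t := Finset.range n) (f := fun (o : Quotient (orbitRel G X)) k => inner ℝ
      ((fun w : HS X => w - c • T (ContinuousLinearMap.adjoint T w))^[k] (l2a_dl o.out))
        (l2a_dl o.out)), Finset.sum_congr rfl (fun k _ => eY k),
    Finset.sum_congr rfl (fun k _ => eX k), ← mul_sub, ← Finset.sum_sub_distrib]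
  have e3 : ∀ k, ((Nat.card (Quotient (orbitRel G Y)) : ℝ) -
          l2a_tr G (ContinuousLinearMap.adjoint T ∘L l2a_Q c T k)) -
        ((Nat.card (Quotient (orbitRel G X)) : ℝ) -
          l2a_tr G (l2a_Q c T k ∘L ContinuousLinearMap.adjoint T)) =
        (Nat.card (Quotient (orbitRel G Y)) : ℝ) - Nat.card (Quotient (orbitRel G X)) := by
    intro k
    rw [l2a_trace G hY hX (l2a_Q c T k) (ContinuousLinearMap.adjoint T) (l2a_Q_eqv G c T hT k)
      (l2a_adj G T hT)]
    ring
  rw [Finset.sum_congr rfl (fun k _ => e3 k), Finset.sum_const, Finset.card_range, nsmul_eq_mul,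
    ← mul_assoc, inv_mul_cancel₀ (by positivity), one_mul]

end Pool.Agent.Helper93.HZ
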